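import Mathlib

/-! CY, piece E4: the derivation along the line kills the data of the multi-tangent line. -/

set_option autoImplicit false

open Polynomial

namespace Pool.Agent.CalabiYau

variable {O : Type} [Field O] [Algebra ℂ O]

/-- the point `x + (T - x_i) v` of the line through `x` with direction `v` -/
noncomputable def linePt {n : ℕ} (x v : Fin n → O) (i : Fin n) (j : Fin n) : O[X] :=
  C (x j) + (X - C (x i)) * C (v j)

/-- the derivation of `O[X]` which acts on the coefficients -/
noncomputable def cd (δ : Derivation ℂ O O) : Derivation ℂ O[X] O[X] :=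
  PolynomialModule.equivPolynomialSelf.compDer δ.mapCoeffs

theorem cd_coeff (δ : Derivation ℂ O O) (p : O[X]) (m : ℕ) : (cd δ p).coeff m = δ (p.coeff m) :=
  rfl

theorem mapCoeff_C' (δ : Derivation ℂ O O) (a : O) : cd δ (C a) = C (δ a) := by
  ext m
  rw [cd_coeff, coeff_C, coeff_C]
  split <;> simp

theorem mapCoeff_X' (δ : Derivation ℂ O O) : cd δ (X : O[X]) = 0 := by
  ext m
  rw [cd_coeff, coeff_X]
  split <;> simp

theorem mapCoeff_linePt {n : ℕ} (x v : Fin n → O) (i : Fin n) (hvi : v i = 1)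
    (δ : Derivation ℂ O O) (hδ : ∀ j, δ (x j) = v j) (j : Fin n) :
    cd δ (linePt x v i j) = (X - C (x i)) * C (δ (v j)) := by
  unfold linePt
  rw [map_add, Derivation.leibniz, map_sub, mapCoeff_X', mapCoeff_C', mapCoeff_C', mapCoeff_C', hδ,
    hδ, hvi]
  simp only [smul_eq_mul, map_one]
  ring

/-- a derivation applied to a polynomial expression -/
theorem derivation_aeval_mv {n : ℕ} {A : Type} [CommRing A] [Algebra ℂ A] (E : Derivation ℂ A A)
    (p : Fin n → A) (f : MvPolynomial (Fin n) ℂ) :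
    E (MvPolynomial.aeval p f) =
      ∑ j, MvPolynomial.aeval p (MvPolynomial.pderiv j f) * E (p j) := by
  induction f using MvPolynomial.induction_on with
  | C c => simp
  | add a b ha hb =>
    rw [map_add, map_add, ha, hb, ← Finset.sum_add_distrib]
    refine Finset.sum_congr rfl fun j _ => ?_
    rw [map_add, map_add]
    ring
  | mul_X a k ha =>
    rw [map_mul, Derivation.leibniz, ha, MvPolynomial.aeval_X]
    have h1 : ∀ j, MvPolynomial.aeval p (MvPolynomial.pderiv j (a * MvPolynomial.X k)) * E (p j) =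
        p k * (MvPolynomial.aeval p (MvPolynomial.pderiv j a) * E (p j)) +
          if j = k then MvPolynomial.aeval p a * E (p k) else 0 := by
      intro j
      rw [MvPolynomial.pderiv_mul, map_add, map_mul, MvPolynomial.aeval_X, map_mul]
      split_ifs with h
      · subst h
        rw [MvPolynomial.pderiv_X_self, map_one]
        ring
      · rw [MvPolynomial.pderiv_X_of_ne (fun h' => h h'.symm)]
        rw [map_zero]
        ring
    rw [Finset.sum_congr rfl fun j _ => h1 j, Finset.sum_add_distrib, ← Finset.mul_sum,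
      Finset.sum_ite_eq' Finset.univ k, if_pos (Finset.mem_univ k)]
    simp only [smul_eq_mul]
    ring

/-- E4: the derivation `δ` of the direction `v` (`δ x = v`, `v i = 1`) kills the solution
`(v, G, Q)` of `f (x + (T - x_i) v) = G² Q`, when the linearised system has no kernel. -/
theorem kill {n : ℕ} (f : MvPolynomial (Fin n) ℂ) (x v : Fin n → O) (i : Fin n) (hvi : v i = 1)
    (G Q : O[X]) (hG0 : G.coeff 0 = 1) (hGd : G.natDegree ≤ n - 1) (hQd : Q.natDegree ≤ 4)
    (hF : MvPolynomial.aeval (linePt x v i) f = G ^ 2 * Q)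
    (hinj : ∀ (η : Fin n → O) (γ κ : O[X]), η i = 0 → γ.coeff 0 = 0 → γ.natDegree ≤ n - 1 →
      κ.natDegree ≤ 4 →
      (∑ j, MvPolynomial.aeval (linePt x v i) (MvPolynomial.pderiv j f) *
        ((X - C (x i)) * C (η j))) = 2 * G * Q * γ + G ^ 2 * κ →
      η = 0 ∧ γ = 0 ∧ κ = 0)
    (δ : Derivation ℂ O O) (hδ : ∀ j, δ (x j) = v j) :
    (∀ j, δ (v j) = 0) ∧ (∀ m, δ (G.coeff m) = 0) ∧ ∀ m, δ (Q.coeff m) = 0 := by
  have hdeg : ∀ (p : O[X]) (d : ℕ), p.natDegree ≤ d → (cd δ p).natDegree ≤ d := by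
    intro p d hp
    rw [natDegree_le_iff_coeff_eq_zero]
    intro m hm
    rw [cd_coeff, coeff_eq_zero_of_natDegree_lt (lt_of_le_of_lt hp hm), map_zero]
  have h1 := congrArg (cd δ) hF
  rw [derivation_aeval_mv (cd δ)] at h1
  simp only [mapCoeff_linePt x v i hvi δ hδ] at h1
  obtain ⟨h2, h3, h4⟩ := hinj (fun j => δ (v j)) (cd δ G) (cd δ Q)
    (by simp [hvi]) (by rw [cd_coeff, hG0]; simp) (hdeg G _ hGd) (hdeg Q _ hQd) (by
      rw [h1, Derivation.leibniz, Derivation.leibniz_pow]
      simp only [smul_eq_mul, nsmul_eq_mul]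
      push_cast
      ring)
  refine ⟨fun j => congrFun h2 j, fun m => ?_, fun m => ?_⟩
  · rw [← cd_coeff, h3, coeff_zero]
  · rw [← cd_coeff, h4, coeff_zero]

end Pool.Agent.CalabiYau
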